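import Mathlib

/-!
# VO: perfect forms (Voronoi's reduction theory), definitions and statements of the modules
-/

set_option autoImplicit false

open scoped Matrix

namespace Pool.Agent.L0h16.VO

variable {m : ℕ}

/-- the symmetric matrix `v vᵀ` -/
def sq (v : Fin m → ℝ) : Matrix (Fin m) (Fin m) ℝ := fun i j => v i * v j

/-- the real vector of an integral vector -/
def rv (v : Fin m → ℤ) : Fin m → ℝ := fun i => (v i : ℝ)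

/-- the value of the quadratic form `Q` at `v` -/
def qf (Q : Matrix (Fin m) (Fin m) ℝ) (v : Fin m → ℝ) : ℝ := ∑ i, ∑ j, Q i j * v i * v j

/-- the pairing of matrices -/
def pr (Q x : Matrix (Fin m) (Fin m) ℝ) : ℝ := ∑ i, ∑ j, Q i j * x i j

/-- positive definite symmetric matrices -/
def PD (m : ℕ) : Set (Matrix (Fin m) (Fin m) ℝ) := {Q | (∀ i j, Q i j = Q j i) ∧ ∀ v, v ≠ 0 → 0 < qf Q v}

/-- positive semidefinite symmetric matrices -/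
def PSD (m : ℕ) : Set (Matrix (Fin m) (Fin m) ℝ) := {Q | (∀ i j, Q i j = Q j i) ∧ ∀ v, 0 ≤ qf Q v}

/-- the transformation `x ↦ A x Aᵀ` -/
def act (A : Matrix (Fin m) (Fin m) ℤ) (x : Matrix (Fin m) (Fin m) ℝ) : Matrix (Fin m) (Fin m) ℝ :=
  A.map (Int.cast : ℤ → ℝ) * x * (A.map (Int.cast : ℤ → ℝ))ᵀ

/-- `Q` is a perfect form of minimum `1` -/
structure Perf (Q : Matrix (Fin m) (Fin m) ℝ) : Prop where
  pos : Q ∈ PD m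
  ge : ∀ v : Fin m → ℤ, v ≠ 0 → 1 ≤ qf Q (rv v)
  span : ∀ x : Matrix (Fin m) (Fin m) ℝ, (∀ i j, x i j = x j i) →
    x ∈ Submodule.span ℝ {z | ∃ v : Fin m → ℤ, v ≠ 0 ∧ qf Q (rv v) = 1 ∧ z = sq (rv v)}

/-! ### the modules -/

/-- BAS: elementary inequalities -/
def S_BAS : Prop := ∀ m : ℕ,
  -- the pairing
  (∀ Q v, pr Q (sq v) = qf Q (m := m) v) ∧ (∀ Q ∈ PSD m, ∀ x ∈ PSD m, 0 ≤ pr Q x) ∧
  (∀ x ∈ PD m, ∃ c : ℝ, 0 < c ∧ ∀ Q ∈ PSD m, ∀ i j, c * |Q i j| ≤ pr Q x) ∧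
  -- positive definite forms
  (∀ Q ∈ PD m, ∃ c : ℝ, 0 < c ∧ ∀ v, c * ∑ i, v i ^ 2 ≤ qf Q v) ∧
  -- the cone is open in the space of symmetric matrices
  (∀ Q ∈ PD m, ∃ ε : ℝ, 0 < ε ∧ ∀ x : Matrix (Fin m) (Fin m) ℝ, (∀ i j, x i j = x j i) →
    (∀ i j, |x i j| < ε) → Q + x ∈ PD m) ∧
  -- semidefinite forms which are at least one on the lattice are definite
  (∀ Q ∈ PSD m, (∀ v : Fin m → ℤ, v ≠ 0 → 1 ≤ qf Q (rv v)) → Q ∈ PD m) ∧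
  -- finitely many short vectors
  (∀ Q ∈ PD m, ∀ r : ℝ, {v : Fin m → ℤ | qf Q (rv v) ≤ r}.Finite)

/-- DET: bounds for the determinant (Minkowski, Hadamard) -/
def S_DET : Prop := ∀ m : ℕ, ∃ c : ℝ, 0 < c ∧ ∀ Q ∈ PD m, (∀ v : Fin m → ℤ, v ≠ 0 → 1 ≤ qf Q (rv v)) →
  c ≤ Q.det ∧ ∀ V : Matrix (Fin m) (Fin m) ℤ, V.det ≠ 0 → (∀ j, qf Q (rv fun i => V i j) = 1) →
    (V.det : ℝ) ^ 2 * Q.det ≤ 1

/-- LAT: integral matrices of bounded nonzero determinant, up to `GL_m(ℤ)` -/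
def S_LAT : Prop := ∀ (m : ℕ) (k : ℤ), ∃ 𝒱 : Finset (Matrix (Fin m) (Fin m) ℤ), (∀ V ∈ 𝒱, V.det ≠ 0) ∧
  ∀ V : Matrix (Fin m) (Fin m) ℤ, V.det ≠ 0 → |V.det| ≤ k →
    ∃ A : Matrix (Fin m) (Fin m) ℤ, IsUnit A.det ∧ A * V ∈ 𝒱

/-- FIN: finitely many perfect forms up to `GL_m(ℤ)` -/
def S_FIN : Prop := S_BAS → S_DET → S_LAT → ∀ m : ℕ, 0 < m → ∃ U : Set (Matrix (Fin m) (Fin m) ℝ), U.Finite ∧
  (∀ Q ∈ U, Perf Q) ∧ ∀ Q, Perf Q → ∃ A : Matrix (Fin m) (Fin m) ℤ, IsUnit A.det ∧ act A Q ∈ U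

/-- VERT: every positive definite form is in the cone generated by the minimal vectors of a perfect form -/
def S_VERT : Prop := S_BAS → ∀ m : ℕ, 0 < m → ∀ x ∈ PD m, ∃ Q, Perf Q ∧ ∃ F : Finset (Fin m → ℤ),
  ∃ a : (Fin m → ℤ) → ℝ, (∀ v ∈ F, v ≠ 0 ∧ qf Q (rv v) = 1) ∧ (∀ v, 0 ≤ a v) ∧ x = ∑ v ∈ F, a v • sq (rv v)

/-- RIG: rigidity of invariant cones, principal congruence subgroups -/
def S_RIG : Prop := S_BAS → ∀ m : ℕ, 2 ≤ m → ∀ N : ℕ, 1 ≤ N → ∀ D : Set (Matrix (Fin m) (Fin m) ℝ),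
  (∀ x ∈ D, ∀ i j, x i j = x j i) → IsClosed D → (∀ x ∈ D, ∀ z ∈ D, x + z ∈ D) →
  (∀ t : ℝ, 0 ≤ t → ∀ x ∈ D, t • x ∈ D) → (∀ x ∈ D, -x ∈ D → x = 0) →
  (∀ A : Matrix (Fin m) (Fin m) ℤ, A.det = 1 → (∀ i j, (N : ℤ) ∣ (A - 1) i j) → ∀ x ∈ D, act A x ∈ D) →
  (D ∩ PD m).Nonempty → D = PSD m

/-- RDEC: rational positive semidefinite matrices are sums of rational squares -/
def S_RDEC : Prop := ∀ m : ℕ, ∀ x ∈ PSD m, (∀ i j, ∃ q : ℚ, x i j = q) → ∃ F : Finset (Fin m → ℤ),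
  ∃ a : (Fin m → ℤ) → ℚ, (∀ v ∈ F, v ≠ 0) ∧ (∀ v, 0 ≤ a v) ∧ x = ∑ v ∈ F, (a v : ℝ) • sq (rv v)

/-- GLF: the principal congruence subgroup has finitely many cosets in `GL_m(ℤ)` -/
def S_GLF : Prop := ∀ (m N : ℕ), 1 ≤ N → ∃ R : Finset (Matrix (Fin m) (Fin m) ℤ),
  (∀ r ∈ R, IsUnit r.det) ∧ ∀ A : Matrix (Fin m) (Fin m) ℤ, IsUnit A.det → ∃ r ∈ R,
    ∃ G : Matrix (Fin m) (Fin m) ℤ, G.det = 1 ∧ (∀ i j, (N : ℤ) ∣ (G - 1) i j) ∧ A = G * r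

end Pool.Agent.L0h16.VO
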